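import Mathlib
import Pool.Agent.J6H35.DH.Lip

/-!
# Lipschitz constants of retractions between finite subset spaces grow at least linearly

For every nonzero real inner product space `H` and every even `n ≥ 4`, a `C`-Lipschitz retraction
of `H(n)` onto `H(n - 1)` (Hausdorff distance) has `C ≥ n - 2`. In particular there is no constant
that works for all `n`.

Idea. By projecting to a line one may take `H = ℝ`. Write `n = m + 2`. The sets
`{0, 1} ⊆ A ⊂ [0, 1]` with at most `n` points form a simplex of dimension `m` all of whose facets
are identified in the order preserving way. If `C < n - 2`, then `r A` always has at least two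
points, and after an affine normalisation `r` becomes a continuous retraction of this space onto
the subspace of the sets with at most `n - 1` points. The boundary of the simplex covers the top
cell of this subspace `m + 1` times, an odd number, and a parity count of labelled simplices of a
fine barycentric subdivision gives a contradiction.
-/

set_option autoImplicit false

namespace Pool.Agent.Results.MP_dc63d3_gt.LinearGrowth

/-- **Linear growth.** For every nonzero real inner product space `H` (no completeness needed),
every even `n ≥ 4`, every real `C` and every map `r` from finite subsets to finite subsets which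
sends the nonempty subsets with at most `n` points to nonempty subsets with at most `n - 1` points,
fixes the nonempty subsets with at most `n - 1` points and is `C`-Lipschitz for the Hausdorff
distance on the nonempty subsets with at most `n` points, one has `n - 2 ≤ C`. -/
theorem result (H : Type*) [NormedAddCommGroup H] [InnerProductSpace ℝ H] [Nontrivial H]
    (n : ℕ) (hn : 4 ≤ n) (heven : Even n) (C : ℝ) (r : Finset H → Finset H)
    (hmaps : ∀ s : Finset H, s.Nonempty → s.card ≤ n → (r s).Nonempty ∧ (r s).card ≤ n - 1)
    (hretr : ∀ s : Finset H, s.Nonempty → s.card ≤ n - 1 → r s = s)
    (hlip : ∀ s t : Finset H, s.Nonempty → s.card ≤ n → t.Nonempty → t.card ≤ n →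
      Metric.hausdorffDist (r s : Set H) (r t : Set H)
        ≤ C * Metric.hausdorffDist (s : Set H) (t : Set H)) :
    (n : ℝ) - 2 ≤ C := by
  obtain ⟨m, rfl⟩ : ∃ m, n = m + 2 := ⟨n - 2, by omega⟩
  have hev : Even m := by
    rw [Nat.even_add] at heven
    exact heven.mpr even_two
  have h := Pool.Agent.J6H35.DH.general m hev (by omega) C r hmaps hretr hlip
  push_cast
  linarith

end Pool.Agent.Results.MP_dc63d3_gt.LinearGrowth
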